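import Pool.Agent.Lib.helper6.PL

namespace Pool.Agent.H.MP_a5e374_pr
open MeasureTheory Set Pool.Agent.Lib.helper6 ENNReal
open scoped Pointwise

theorem core {t : ℝ} (t0 : 0 < t) (t1 : t < 1) {f g h : ℝ → ℝ≥0∞} (hf : Measurable f)
    (hg : Measurable g) (hh : Measurable h) (f1 : ⨆ x, f x = 1) (g1 : ⨆ x, g x = 1)
    (H : ∀ x y, min (f x) (g y) ≤ h (t * x + (1 - t) * y)) :
    .ofReal t * (∫⁻ x, f x) + .ofReal (1 - t) * ∫⁻ x, g x ≤ ∫⁻ x, h x := by
  have e : ∀ f : ℝ → ℝ≥0∞, ⨆ x, f x = 1 → ∫⁻ x, f x = ∫⁻ x, min (f x) 1 := fun f f1 =>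
    lintegral_congr fun x => (min_eq_left (f1 ▸ le_iSup f x)).symm
  refine le_trans ?_ (lintegral_mono fun x => min_le_left (h x) 1)
  have an : Antitone fun s : ℝ => volume {x | ENNReal.ofReal s < f x} :=
    fun s t hst => measure_mono fun x hx => (ENNReal.ofReal_le_ofReal hst).trans_lt hx
  rw [e f f1, e g g1, layer _ hf, layer _ hg, layer _ hh, ← lintegral_const_mul' _ _ (by simp),
    ← lintegral_const_mul' _ _ (by simp), ← lintegral_add_left (an.measurable.const_mul _)]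
  refine setLIntegral_mono' measurableSet_Ioo fun s hs => ?_
  have ne : ∀ f : ℝ → ℝ≥0∞, ⨆ x, f x = 1 → {x | ENNReal.ofReal s < f x}.Nonempty := fun f f1 =>
    (lt_iSup_iff (f := f)).1 (f1 ▸ ENNReal.ofReal_lt_one.2 hs.2)
  have t2 : 0 < 1 - t := by linarith
  have := bm_one (A := t • {x | ENNReal.ofReal s < f x}) (B := (1 - t) • {x | ENNReal.ofReal s < g x})
    (C := {x | ENNReal.ofReal s < h x})
    ((measurableSet_lt (by fun_prop) hf).const_smul₀ _)
    ((measurableSet_lt (by fun_prop) hg).const_smul₀ _) (ne f f1).smul_set (ne g g1).smul_set (by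
      rintro _ ⟨a, ha, rfl⟩ _ ⟨b, hb, rfl⟩
      exact (lt_min ha hb).trans_le (H a b))
  simpa [Measure.addHaar_smul, abs_of_pos t0, abs_of_pos t2] using this

lemma root (k : ℕ) (hk : k ≠ 0) {a : ℝ≥0∞} (a0 : a ≠ 0) (a1 : a ≠ ⊤) :
    ∃ A : ℝ, 0 < A ∧ a = .ofReal (1 / A ^ k) := by
  have : 0 < a.toReal := toReal_pos a0 a1
  refine ⟨(a.toReal ^ (k⁻¹ : ℝ))⁻¹, by positivity, ?_⟩
  rw [inv_pow, Real.rpow_inv_natCast_pow this.le hk, one_div, inv_inv, ofReal_toReal a1]

def Mean (k : ℕ) (t : ℝ) (a b c : ℝ≥0∞) : Prop :=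
  ∀ α β : ℝ, 0 < α → 0 < β → .ofReal (1 / α ^ k) ≤ a → .ofReal (1 / β ^ k) ≤ b →
    .ofReal (1 / (t * α + (1 - t) * β) ^ k) ≤ c

theorem core2 (k : ℕ) (hk : k ≠ 0) {t : ℝ} (t0 : 0 < t) (t1 : t < 1) {f g h : ℝ → ℝ≥0∞}
    (hf : Measurable f) (hg : Measurable g) (hh : Measurable h) (f1 : ⨆ x, f x ≠ ⊤)
    (g1 : ⨆ x, g x ≠ ⊤) (H : ∀ x y, Mean k t (f x) (g y) (h (t * x + (1 - t) * y)))
    {u v : ℝ} (u0 : 0 < u) (v0 : 0 < v) (hu : .ofReal u ≤ ∫⁻ x, f x) (hv : .ofReal v ≤ ∫⁻ x, g x) :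
    ∃ A B : ℝ, 0 < A ∧ 0 < B ∧
      .ofReal ((t * A ^ k * u + (1 - t) * B ^ k * v) / (t * A + (1 - t) * B) ^ k) ≤ ∫⁻ x, h x := by
  have nz : ∀ (f : ℝ → ℝ≥0∞) (u : ℝ), 0 < u → .ofReal u ≤ ∫⁻ x, f x → ⨆ x, f x ≠ 0 := by
    intro f u u0 hu h0
    simp [ENNReal.iSup_eq_zero.1 h0] at hu
    linarith
  obtain ⟨A, A0, hA⟩ := root k hk (nz f u u0 hu) f1
  obtain ⟨B, B0, hB⟩ := root k hk (nz g v v0 hv) g1
  have t2 : 0 < 1 - t := by linarith
  have m0 : 0 < t * A + (1 - t) * B := by positivity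
  have one : ∀ A : ℝ, 0 < A → ENNReal.ofReal (A ^ k) * .ofReal (1 / A ^ k) = 1 := fun A A0 => by
    rw [← ofReal_mul (by positivity), mul_one_div_cancel (by positivity), ofReal_one]
  have := core t0 t1 (f := fun x => .ofReal (A ^ k) * f x) (g := fun x => .ofReal (B ^ k) * g x)
    (h := fun x => .ofReal ((t * A + (1 - t) * B) ^ k) * h x) (by fun_prop) (by fun_prop)
    (by fun_prop) (by rw [← ENNReal.mul_iSup, hA, one A A0])
    (by rw [← ENNReal.mul_iSup, hB, one B B0]) (fun x y => by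
      by_cases s0 : min (.ofReal (A ^ k) * f x) (.ofReal (B ^ k) * g y) = 0
      · rw [s0]; exact zero_le
      have s1 : min (.ofReal (A ^ k) * f x) (.ofReal (B ^ k) * g y) ≠ ⊤ :=
        ne_top_of_le_ne_top (mul_ne_top ofReal_ne_top (ne_top_of_le_ne_top f1 (le_iSup f x)))
          (min_le_left _ _)
      obtain ⟨σ, σ0, hσ⟩ := root k hk s0 s1
      have key : ∀ (A : ℝ) (z : ℝ≥0∞), 0 < A → .ofReal (1 / σ ^ k) ≤ .ofReal (A ^ k) * z →
          .ofReal (1 / (σ * A) ^ k) ≤ z := by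
        intro A z A0 hz
        have := mul_le_mul_right hz (.ofReal (1 / A ^ k))
        rw [← mul_assoc, mul_comm _ (ENNReal.ofReal (A ^ k)), one A A0, one_mul,
          ← ofReal_mul (by positivity)] at this
        convert this using 2
        rw [mul_pow]; field_simp
      have := H x y (σ * A) (σ * B) (by positivity) (by positivity)
        (key A _ A0 (hσ ▸ min_le_left _ _)) (key B _ B0 (hσ ▸ min_le_right _ _))
      rw [hσ]
      refine le_trans (le_of_eq ?_) (mul_le_mul_right this _)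
      rw [← ofReal_mul (by positivity), show t * (σ * A) + (1 - t) * (σ * B) =
        σ * (t * A + (1 - t) * B) by ring, mul_pow]
      congr 1; field_simp)
  rw [lintegral_const_mul _ hf, lintegral_const_mul _ hg, lintegral_const_mul _ hh] at this
  refine ⟨A, B, A0, B0, ?_⟩
  have h2 := mul_le_mul_right this (.ofReal (1 / (t * A + (1 - t) * B) ^ k))
  rw [← mul_assoc _ _ (∫⁻ a, h a), mul_comm _ (ENNReal.ofReal ((t * A + (1 - t) * B) ^ k)),
    one _ m0, one_mul] at h2
  refine le_trans ?_ h2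
  rw [div_eq_inv_mul, ← one_div, ofReal_mul (by positivity), ofReal_add (by positivity) (by positivity),
    ofReal_mul (by positivity), ofReal_mul (by positivity), ofReal_mul (by positivity),
    ofReal_mul (by positivity), mul_assoc, mul_assoc]
  gcongr

theorem bbl {t : ℝ} (t0 : 0 < t) (t1 : t < 1) {f g h : ℝ × ℝ → ℝ≥0∞}
    (hf : Measurable f) (hg : Measurable g) (hh : Measurable h) (M : ℝ≥0∞) (hM : M ≠ ⊤)
    (f1 : ∀ p, f p ≤ M) (g1 : ∀ p, g p ≤ M) (f2 : ∀ x, ∫⁻ y, f (x, y) ≤ M)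
    (g2 : ∀ x, ∫⁻ y, g (x, y) ≤ M) (H : ∀ p q, Mean 2 t (f p) (g q) (h (t • p + (1 - t) • q)))
    {u : ℝ} (u0 : 0 < u) (hu : .ofReal u ≤ ∫⁻ p, f p) (hv : .ofReal u ≤ ∫⁻ p, g p) :
    .ofReal u ≤ ∫⁻ p, h p := by
  have t2 : 0 < 1 - t := by linarith
  rw [Measure.volume_eq_prod] at hu hv ⊢
  rw [lintegral_prod _ hf.aemeasurable] at hu
  rw [lintegral_prod _ hg.aemeasurable] at hv
  rw [lintegral_prod _ hh.aemeasurable]
  obtain ⟨A, B, A0, B0, h1⟩ := core2 1 one_ne_zero t0 t1 hf.lintegral_prod_right'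
    hg.lintegral_prod_right' hh.lintegral_prod_right' (ne_top_of_le_ne_top hM (iSup_le f2))
    (ne_top_of_le_ne_top hM (iSup_le g2)) (fun x x' α β α0 β0 h1 h2 => by
      obtain ⟨A, B, A0, B0, h3⟩ := core2 2 two_ne_zero t0 t1 (f := fun y => f (x, y))
        (g := fun y => g (x', y)) (h := fun y => h (t * x + (1 - t) * x', y)) (by fun_prop)
        (by fun_prop) (by fun_prop) (ne_top_of_le_ne_top hM (iSup_le fun y => f1 _))
        (ne_top_of_le_ne_top hM (iSup_le fun y => g1 _)) (fun y y' => H (x, y) (x', y'))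
        (by positivity) (by positivity) h1 h2
      refine le_trans (ofReal_le_ofReal ?_) h3
      simp only [pow_one]
      rw [div_le_div_iff₀ (by positivity) (by positivity)]
      have e : (t * A ^ 2 * (1 / α) + (1 - t) * B ^ 2 * (1 / β)) * (t * α + (1 - t) * β) -
          1 * (t * A + (1 - t) * B) ^ 2 = t * (1 - t) * (A * β - B * α) ^ 2 / (α * β) := by
        field_simp; ring
      have : 0 ≤ t * (1 - t) * (A * β - B * α) ^ 2 / (α * β) := by positivity
      linarith) u0 u0 hu hv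
  convert h1 using 2
  simp only [pow_one]
  field_simp

lemma marg1 {F : ℝ × ℝ → ℝ≥0∞} (hF : Measurable F) :
    (volume.withDensity F).map Prod.fst = volume.withDensity fun x => ∫⁻ y, F (x, y) := by
  ext s hs
  rw [Measure.map_apply measurable_fst hs, withDensity_apply _ (measurable_fst hs),
    withDensity_apply _ hs, ← lintegral_indicator (measurable_fst hs), ← lintegral_indicator hs,
    Measure.volume_eq_prod, lintegral_prod _ (hF.indicator (measurable_fst hs)).aemeasurable]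
  refine lintegral_congr fun x => ?_
  by_cases h : x ∈ s <;> simp [indicator, h]

lemma mapE {F : ℝ × ℝ → ℝ≥0∞} (e : ℝ × ℝ ≃ᵐ ℝ × ℝ)
    (he : MeasurePreserving e.symm volume volume) :
    (volume.withDensity F).map e = volume.withDensity fun p => F (e.symm p) := by
  ext s hs
  rw [e.map_apply, withDensity_apply _ (e.measurable hs), withDensity_apply _ hs,
    ← he.setLIntegral_comp_preimage_emb e.symm.measurableEmbedding]
  simp

lemma marg {F : ℝ × ℝ → ℝ≥0∞} (hF : Measurable F) (e : ℝ × ℝ ≃ᵐ ℝ × ℝ)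
    (he : MeasurePreserving e.symm volume volume) :
    (volume.withDensity F).map (fun p => (e p).1) =
      volume.withDensity fun x => ∫⁻ y, F (e.symm (x, y)) := by
  rw [← marg1 (F := fun p => F (e.symm p)) (by fun_prop), ← mapE e he,
    Measure.map_map measurable_fst e.measurable]
  rfl

lemma ent {Ω : Type} [MeasurableSpace Ω] {μ : Measure Ω} {U : Ω → ℝ} (hU : Measurable U)
    {f : ℝ → ℝ} (hf : Measurable f) (f0 : ∀ x, 0 ≤ f x)
    (h : μ.map U = volume.withDensity fun x => .ofReal (f x))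
    (hi : Integrable fun x => Real.negMulLog (f x)) :
    Integrable (fun ω => Real.log (f (U ω))) μ ∧
      ∫ x, Real.negMulLog (f x) = -∫ ω, Real.log (f (U ω)) ∂μ ∧ ∀ᵐ ω ∂μ, 0 < f (U ω) := by
  have m : Measurable fun x => Real.log (f x) := by fun_prop
  have e : (fun x => Real.negMulLog (f x)) = fun x => -(Real.log (f x) * f x) := by
    ext x; rw [Real.negMulLog]; ring
  refine ⟨?_, ?_, ?_⟩
  · refine (integrable_map_measure m.aestronglyMeasurable hU.aemeasurable).1 ?_
    rw [h, integrable_withDensity_iff (by fun_prop) (by simp)]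
    simp only [toReal_ofReal (f0 _)]
    rw [e] at hi
    exact integrable_neg_iff.1 hi
  · rw [← integral_map hU.aemeasurable m.aestronglyMeasurable, h,
      integral_withDensity_eq_integral_toReal_smul (by fun_prop) (by simp), e, integral_neg]
    simp only [toReal_ofReal (f0 _), smul_eq_mul, mul_comm]
  · refine (ae_map_iff (p := fun x => 0 < f x) hU.aemeasurable
      (measurableSet_lt measurable_const hf)).1 ?_
    rw [h, ae_withDensity_iff (by fun_prop)]
    exact ae_of_all _ fun x hx => by simpa using hx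

lemma cmp {Ω : Type} [MeasurableSpace Ω] {μ : Measure Ω} [IsProbabilityMeasure μ] {u w : Ω → ℝ}
    (hu : Measurable u) (hw : Measurable w) (u0 : ∀ᵐ ω ∂μ, 0 < u ω) (w0 : ∀ᵐ ω ∂μ, 0 < w ω)
    (iu : Integrable (fun ω => Real.log (u ω)) μ) (iw : Integrable (fun ω => Real.log (w ω)) μ)
    {Γ : Set Ω} (hΓ : MeasurableSet Γ) {K C m : ℝ} (K0 : 0 ≤ K) (C0 : 0 ≤ C)
    (hK : ∀ ω ∈ Γ, Real.exp K * w ω ≤ u ω) (hm : .ofReal m ≤ μ Γ)
    (hC : ∫⁻ ω, .ofReal (w ω / u ω) ∂μ ≤ .ofReal C) :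
    m * K - C ≤ ∫ ω, Real.log (u ω) ∂μ - ∫ ω, Real.log (w ω) ∂μ := by
  have q0 : 0 ≤ᵐ[μ] fun ω => w ω / u ω := by
    filter_upwards [u0, w0] with ω a b using (div_pos b a).le
  have iq : Integrable (fun ω => w ω / u ω) μ :=
    ⟨(hw.div hu).aestronglyMeasurable, (hasFiniteIntegral_iff_ofReal q0).2
      (hC.trans_lt ofReal_lt_top)⟩
  have h1 : ∫ ω, w ω / u ω ∂μ ≤ C := by
    rw [integral_eq_lintegral_of_nonneg_ae q0 iq.1]
    exact toReal_le_of_le_ofReal C0 hC
  have h2 : m ≤ μ.real Γ := by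
    rw [measureReal_def, ← ofReal_le_iff_le_toReal (measure_ne_top _ _)]; exact hm
  have iΓ : Integrable (Γ.indicator fun _ => K) μ := (integrable_const K).indicator hΓ
  have h3 : ∫ ω, (Γ.indicator (fun _ => K) ω - w ω / u ω) ∂μ ≤
      ∫ ω, (Real.log (u ω) - Real.log (w ω)) ∂μ := by
    refine integral_mono_ae (iΓ.sub iq) (iu.sub iw) ?_
    filter_upwards [u0, w0] with ω a b
    have q := div_pos b a
    by_cases h : ω ∈ Γ
    · have := Real.log_le_log (by positivity) (hK ω h)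
      rw [Real.log_mul (by positivity) b.ne', Real.log_exp] at this
      simp only [indicator_of_mem h]; linarith
    · have := Real.log_le_sub_one_of_pos q
      rw [Real.log_div b.ne' a.ne'] at this
      simp only [indicator_of_notMem h]; linarith
  rw [integral_sub iΓ iq, integral_sub iu iw, integral_indicator hΓ] at h3
  simp only [integral_const, MeasurableSet.univ, measureReal_restrict_apply, univ_inter,
    smul_eq_mul] at h3
  nlinarith

lemma integ {f : ℝ → ℝ} (hf : Measurable f) (f0 : ∀ x, 0 ≤ f x) (M L : ℝ) (f1 : ∀ x, f x ≤ M)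
    (f2 : ∀ x, L < |x| → f x = 0) : Integrable fun x => Real.negMulLog (f x) := by
  obtain ⟨C, hC⟩ := (isCompact_Icc (a := 0) (b := M)).exists_bound_of_continuousOn
    Real.continuous_negMulLog.continuousOn
  rw [← integrableOn_iff_integrable_of_support_subset (s := Icc (-L) L)]
  · exact Measure.integrableOn_of_bounded (M := C) (by simp)
      (Real.continuous_negMulLog.measurable.comp hf).aestronglyMeasurable
      (ae_of_all _ fun x => hC _ ⟨f0 x, f1 x⟩)
  · intro x hx
    by_contra h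
    rw [mem_Icc, ← abs_le, not_le] at h
    simp [f2 x h] at hx

lemma sym (g : ℝ → ℝ≥0∞) : ∫⁻ y, g |y| = 2 * ∫⁻ y in Ioi 0, g y := by
  have h1 : ∫⁻ y in Ioi (0 : ℝ), g |y| = ∫⁻ y in Ioi 0, g y :=
    setLIntegral_congr_fun measurableSet_Ioi fun y hy => by simp only [abs_of_pos (mem_Ioi.1 hy)]
  have h2 := (Measure.measurePreserving_neg (volume : Measure ℝ)).setLIntegral_comp_preimage_emb
    (measurableEmbedding_neg) (fun y => g |y|) (Iic 0)
  simp only [abs_neg, neg_preimage, neg_Iic, neg_zero] at h2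
  rw [← lintegral_add_compl _ (measurableSet_Ioi (a := (0 : ℝ))), compl_Ioi, ← h2,
    ← setLIntegral_congr Ioi_ae_eq_Ici, h1, two_mul]

lemma J {A a : ℝ} (hA : 0 < A) (ha : 0 < a) (z : ℝ) :
    ∫⁻ y, .ofReal (1 / (A + |y - z| / a) ^ 2) = ENNReal.ofReal (2 * a / A) := by
  rw [lintegral_sub_right_eq_self (fun y => ENNReal.ofReal (1 / (A + |y| / a) ^ 2)) z,
    sym fun y => ENNReal.ofReal (1 / (A + y / a) ^ 2)]
  have d : ∀ y ∈ Ici (0 : ℝ), HasDerivAt (fun y => -a * (A + y / a)⁻¹) (1 / (A + y / a) ^ 2) y := by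
    intro y hy
    have : 0 < A + y / a := by have := mem_Ici.1 hy; positivity
    have := ((((hasDerivAt_id' y).div_const a).const_add A).fun_inv this.ne').const_mul (-a)
    refine this.congr_deriv ?_
    field_simp
  have t : Filter.Tendsto (fun y : ℝ => -a * (A + y / a)⁻¹) Filter.atTop (nhds 0) := by
    simpa using (tendsto_inv_atTop_zero.comp (Filter.tendsto_atTop_add_const_left _ A
      (Filter.tendsto_id.atTop_div_const ha))).const_mul (-a)
  rw [← ofReal_integral_eq_lintegral_ofReal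
    (integrableOn_Ioi_deriv_of_nonneg' d (fun y _ => by positivity) t)
    (ae_of_all _ fun y => by positivity),
    integral_Ioi_of_hasDerivAt_of_nonneg' d (fun y _ => by positivity) t,
    ← ofReal_ofNat, ← ofReal_mul (by norm_num)]
  congr 1; simp; ring

lemma Lg {η S T : ℝ} (hη : 0 < η) (hS : 1 ≤ S) (hT : S ≤ T) :
    ∫⁻ x in Icc (1 + η * (S - 1)) (1 + η * (T - 1)), .ofReal (1 / (1 + (x - 1) / η)) =
      ENNReal.ofReal (η * (Real.log T - Real.log S)) := by
  have le : 1 + η * (S - 1) ≤ 1 + η * (T - 1) := by gcongr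
  have pos : ∀ x ∈ Icc (1 + η * (S - 1)) (1 + η * (T - 1)), 0 < 1 + (x - 1) / η := by
    intro x hx
    have : 0 ≤ x - 1 := by nlinarith [hx.1]
    positivity
  have c : ContinuousOn (fun x => 1 / (1 + (x - 1) / η)) (Icc (1 + η * (S - 1)) (1 + η * (T - 1))) :=
    continuousOn_const.div (by fun_prop) fun x hx => (pos x hx).ne'
  rw [← ofReal_integral_eq_lintegral_ofReal c.integrableOn_Icc
    ((ae_restrict_iff' measurableSet_Icc).2 (ae_of_all _ fun x hx => by
      have := pos x hx; positivity)), integral_Icc_eq_integral_Ioc,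
    ← intervalIntegral.integral_of_le le,
    intervalIntegral.integral_eq_sub_of_hasDerivAt (f := fun x => η * Real.log (1 + (x - 1) / η))
      (fun x hx => ?_) (c.mono (uIcc_of_le le).subset).intervalIntegrable]
  · congr 1
    rw [show 1 + (1 + η * (T - 1) - 1) / η = T by field_simp; ring,
      show 1 + (1 + η * (S - 1) - 1) / η = S by field_simp; ring]
    ring
  · rw [uIcc_of_le le] at hx
    have := pos x hx
    have := (((((hasDerivAt_id' x).sub_const 1).div_const η).const_add 1).log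
      this.ne').const_mul η
    refine this.congr_deriv ?_
    field_simp

noncomputable def lg (η T : ℝ) : ℝ → ℝ≥0∞ :=
  (Icc 1 (1 + η * (T - 1))).indicator fun x => .ofReal (1 / (1 + (x - 1) / η))

lemma lg_meas (η T : ℝ) : Measurable (lg η T) := Measurable.indicator (by fun_prop) measurableSet_Icc

lemma lg_int {η T : ℝ} (hη : 0 < η) (hT : 1 ≤ T) :
    ∫⁻ x, lg η T |x| ≤ .ofReal (2 * (η * Real.log T)) := by
  have := Lg hη le_rfl hT
  simp only [sub_self, mul_zero, add_zero, Real.log_one, sub_zero] at this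
  rw [sym, ofReal_mul (by norm_num), ofReal_ofNat, ← this, ← lintegral_indicator measurableSet_Icc]
  exact mul_le_mul_right (setLIntegral_le_lintegral _ _) _

lemma low {G : ℝ → ℝ≥0∞} {u v m : ℝ} (m0 : 0 ≤ m) (h : ∀ z ∈ Icc u v, .ofReal m ≤ G z) :
    .ofReal (m * (v - u)) ≤ ∫⁻ z, G z := by
  refine le_trans ?_ (setLIntegral_le_lintegral (Icc u v) _)
  refine le_trans ?_ (setLIntegral_mono' measurableSet_Icc h)
  simp [ofReal_mul m0]

lemma inner {G W : ℝ → ℝ≥0∞} (hG : Measurable G) (hW : Measurable W) (W1 : ∫⁻ z, W z = 1)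
    {b d : ℝ≥0∞} (h : ∀ z, W z ≤ b ∨ G z * .ofReal (1 / (∫⁻ z, G z).toReal) ≤ d) :
    ∫⁻ z, G z * (W z * .ofReal (1 / (∫⁻ z, G z).toReal)) ≤ b + d := by
  set ι := ENNReal.ofReal (1 / (∫⁻ z, G z).toReal) with hι
  have h1 : (∫⁻ z, G z) * ι ≤ 1 := by
    by_cases h0 : (∫⁻ z, G z).toReal = 0
    · simp [hι, h0]
    · have := (toReal_ne_zero.1 h0).2
      rw [hι]
      nth_rw 1 [← ofReal_toReal this]
      rw [← ofReal_mul toReal_nonneg, mul_one_div_cancel h0, ofReal_one]
  calc _ ≤ ∫⁻ z, (G z * (ι * b) + W z * d) := lintegral_mono fun z => by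
        rcases h z with h | h
        · refine le_trans ?_ le_self_add
          rw [mul_comm ι]; gcongr
        · refine le_trans ?_ le_add_self
          rw [mul_left_comm]; gcongr
    _ ≤ _ := by
        rw [lintegral_add_left (by fun_prop), lintegral_mul_const _ hG, lintegral_mul_const _ hW,
          W1, one_mul, ← mul_assoc]
        gcongr
        exact mul_le_of_le_one_left' h1

lemma iota {g z : ℝ≥0∞} {m n : ℝ} (g1 : g ≠ ⊤) (m0 : 0 < m) (n0 : 0 ≤ n) (h : .ofReal m ≤ g)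
    (hz : z ≤ .ofReal n) : z * .ofReal (1 / g.toReal) ≤ .ofReal (n / m) := by
  rw [ofReal_le_iff_le_toReal g1] at h
  rw [div_eq_mul_one_div n, ofReal_mul n0]
  gcongr

end Pool.Agent.H.MP_a5e374_pr
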