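import Pool.Agent.H.MP_a5e374_pr.A

namespace Pool.Agent.H.MP_a5e374_pr
open MeasureTheory Set ENNReal
open scoped Pointwise

noncomputable def pf (η x : ℝ) : ℝ := 1 + max (|x| - 1) 0 / η

noncomputable def Φ (a η : ℝ) (q : ℝ × ℝ) : ℝ := pf η q.1 + |q.2| / a

def K (a η T : ℝ) : Set (ℝ × ℝ) := {q | pf η q.1 ≤ T ∧ |q.2| ≤ a * T}

noncomputable def F (a η T c : ℝ) : ℝ × ℝ → ℝ≥0∞ :=
  (K a η T).indicator fun q => .ofReal (c / Φ a η q ^ 2)

variable {a η T c : ℝ}

lemma pf_cont : Continuous (pf η) := by unfold pf; fun_prop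

lemma F_meas : Measurable (F a η T c) := by
  have := pf_cont (η := η)
  refine Measurable.indicator (by unfold Φ; fun_prop) ?_
  exact (measurableSet_le (f := fun q : ℝ × ℝ => pf η q.1) (by fun_prop) measurable_const).inter
    (measurableSet_le (f := fun q : ℝ × ℝ => |q.2|) (by fun_prop) measurable_const)

lemma pf1 (hη : 0 < η) (x : ℝ) : 1 ≤ pf η x := by
  have : 0 ≤ max (|x| - 1) 0 / η := by positivity
  unfold pf; linarith

lemma F_le (c0 : 0 ≤ c) (q : ℝ × ℝ) {b : ℝ} (b0 : 0 < b) (h : b ≤ Φ a η q) :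
    F a η T c q ≤ .ofReal (c / b ^ 2) :=
  (indicator_le_self _ _ _).trans (ofReal_le_ofReal (by gcongr))

lemma le_F (ha : 0 < a) (hη : 0 < η) (c0 : 0 ≤ c) {q : ℝ × ℝ} (hq : q ∈ K a η T) {b : ℝ}
    (h : Φ a η q ≤ b) : .ofReal (c / b ^ 2) ≤ F a η T c q := by
  have := pf1 hη q.1
  have : 0 < Φ a η q := by unfold Φ; positivity
  rw [F, indicator_of_mem hq]
  exact ofReal_le_ofReal (by gcongr)

lemma pf_conv (hη : 0 < η) {t : ℝ} (t0 : 0 ≤ t) (t1 : t ≤ 1) (x y : ℝ) :
    pf η (t * x + (1 - t) * y) ≤ t * pf η x + (1 - t) * pf η y := by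
  have t2 : 0 ≤ 1 - t := by linarith
  have h1 : |t * x + (1 - t) * y| ≤ t * |x| + (1 - t) * |y| := by
    refine (abs_add_le _ _).trans ?_
    rw [abs_mul, abs_mul, abs_of_nonneg t0, abs_of_nonneg t2]
  have h2 : max (|t * x + (1 - t) * y| - 1) 0 ≤
      t * max (|x| - 1) 0 + (1 - t) * max (|y| - 1) 0 := by
    apply max_le _ (by positivity)
    nlinarith [mul_le_mul_of_nonneg_left (le_max_left (|x| - 1) 0) t0,
      mul_le_mul_of_nonneg_left (le_max_left (|y| - 1) 0) t2]
  have h3 := div_le_div_of_nonneg_right h2 hη.le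
  unfold pf
  rw [add_div, mul_div_assoc, mul_div_assoc] at h3
  linarith

lemma F_mean (ha : 0 < a) (hη : 0 < η) (c0 : 0 < c) {t : ℝ} (t0 : 0 < t) (t1 : t < 1)
    (A B : Set (ℝ × ℝ)) (p q : ℝ × ℝ) :
    Mean 2 t (A.indicator (F a η T c) p) (B.indicator (F a η T c) q)
      ((t • A + (1 - t) • B).indicator (F a η T c) (t • p + (1 - t) • q)) := by
  have key : ∀ (A : Set (ℝ × ℝ)) p (α : ℝ), 0 < α →
      .ofReal (1 / α ^ 2) ≤ A.indicator (F a η T c) p →
      p ∈ A ∧ p ∈ K a η T ∧ Φ a η p ≤ √c * α := by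
    intro A p α α0 h
    have z : ¬ ENNReal.ofReal (1 / α ^ 2) ≤ 0 := by
      rw [not_le, ofReal_pos]; positivity
    have h1 : p ∈ A := by by_contra hh; rw [indicator_of_notMem hh] at h; exact z h
    rw [indicator_of_mem h1, F] at h
    have h2 : p ∈ K a η T := by by_contra hh; rw [indicator_of_notMem hh] at h; exact z h
    rw [indicator_of_mem h2, ofReal_le_ofReal_iff (by positivity)] at h
    have := pf1 hη p.1
    have h3 : 0 < Φ a η p := by unfold Φ; positivity
    refine ⟨h1, h2, (sq_le_sq₀ h3.le (by positivity)).1 ?_⟩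
    rw [mul_pow, Real.sq_sqrt c0.le]
    rw [div_le_div_iff₀ (by positivity) (by positivity)] at h
    linarith
  intro α β α0 β0 h1 h2
  obtain ⟨a1, a2, a3⟩ := key A p α α0 h1
  obtain ⟨b1, b2, b3⟩ := key B q β β0 h2
  have t2 : 0 < 1 - t := by linarith
  have c1 := pf_conv hη t0.le t1.le p.1 q.1
  have c2 : |t * p.2 + (1 - t) * q.2| ≤ t * |p.2| + (1 - t) * |q.2| := by
    refine (abs_add_le _ _).trans ?_
    rw [abs_mul, abs_mul, abs_of_pos t0, abs_of_pos t2]
  rw [indicator_of_mem (add_mem_add (smul_mem_smul_set a1) (smul_mem_smul_set b1))]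
  have := le_F ha hη c0.le (T := T) (q := t • p + (1 - t) • q) (b := √c * (t * α + (1 - t) * β))
    ⟨c1.trans (by nlinarith [a2.1, b2.1]), c2.trans (by nlinarith [a2.2, b2.2])⟩ (by
      have c3 := div_le_div_of_nonneg_right c2 ha.le
      rw [add_div, mul_div_assoc, mul_div_assoc] at c3
      unfold Φ at *
      simp only [Prod.fst_add, Prod.snd_add, Prod.smul_fst, Prod.smul_snd, smul_eq_mul]
      nlinarith)
  convert this using 2
  rw [mul_pow, Real.sq_sqrt c0.le]; field_simp

lemma Jc (c0 : 0 ≤ c) {A a : ℝ} (hA : 0 < A) (ha : 0 < a) (z : ℝ) :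
    ∫⁻ y, .ofReal (c / (A + |y - z| / a) ^ 2) = ENNReal.ofReal (c * (2 * a / A)) := by
  rw [ofReal_mul c0, ← J hA ha z, ← lintegral_const_mul _ (by fun_prop)]
  refine lintegral_congr fun y => ?_
  rw [← ofReal_mul c0, mul_one_div]

lemma U1 (ha : 0 < a) (hη : 0 < η) (c0 : 0 ≤ c) (x : ℝ) :
    ∫⁻ y, F a η T c (x, y) ≤ .ofReal (c * (2 * a / pf η x)) := by
  have := pf1 hη x
  rw [← Jc c0 (by linarith) ha 0]
  exact lintegral_mono fun y => F_le c0 _ (by positivity) (by simp [Φ])

lemma U0 {x : ℝ} (h : T < pf η x) (y : ℝ) : F a η T c (x, y) = 0 :=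
  indicator_of_notMem (fun h' => absurd h'.1 (not_le.2 h)) _

lemma U2 (ha : 0 < a) (hη : 0 < η) (c0 : 0 ≤ c) {x : ℝ} (h : pf η x ≤ T) :
    .ofReal (a * c / (2 * pf η x)) ≤ ∫⁻ y, F a η T c (x, y) := by
  have := pf1 hη x
  convert low (u := -(a * pf η x)) (v := a * pf η x) (m := c / (2 * pf η x) ^ 2) (by positivity)
    fun y hy => le_F ha hη c0 (q := (x, y)) ⟨h, (abs_le.2 hy).trans (by gcongr)⟩ (by
      have := (div_le_iff₀' ha).2 (abs_le.2 hy)
      simp only [Φ]; linarith) using 2
  field_simp; ring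

lemma pf_lg (hη : 0 < η) {x : ℝ} (h : pf η x ≤ T) (h1 : 1 < |x|) :
    ENNReal.ofReal (1 / pf η x) = lg η T |x| := by
  rw [pf, max_eq_left (by linarith)] at h ⊢
  rw [lg, indicator_of_mem]
  refine ⟨h1.le, ?_⟩
  have : (|x| - 1) / η ≤ T - 1 := by linarith
  rw [div_le_iff₀' hη] at this
  linarith

lemma lgI (hη : 0 < η) (hT : 1 ≤ T) (hl : η * Real.log T = a) {G : ℝ → ℝ≥0∞} {u v : ℝ}
    (u0 : 0 ≤ u) (v0 : 0 ≤ v) (h1 : ∀ x, |x| ≤ 1 → G x ≤ .ofReal u)
    (h2 : ∀ x, pf η x ≤ T → 1 < |x| → G x ≤ .ofReal (v / pf η x))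
    (h3 : ∀ x, T < pf η x → G x = 0) : ∫⁻ x, G x ≤ .ofReal (2 * u + 2 * a * v) := by
  calc _ ≤ ∫⁻ x, ((Icc (-1) 1).indicator (fun _ => ENNReal.ofReal u) x + .ofReal v * lg η T |x|) := by
        refine lintegral_mono fun x => ?_
        by_cases h : |x| ≤ 1
        · refine le_trans ?_ le_self_add
          rw [indicator_of_mem (show x ∈ Icc (-1) 1 from abs_le.1 h)]; exact h1 x h
        · by_cases h' : pf η x ≤ T
          · refine le_trans ?_ le_add_self
            rw [← pf_lg hη h' (not_le.1 h), ← ofReal_mul v0, mul_one_div]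
            exact h2 x h' (not_le.1 h)
          · rw [h3 x (not_le.1 h')]; exact zero_le
    _ ≤ _ := by
        rw [lintegral_add_left (measurable_const.indicator measurableSet_Icc),
          lintegral_const_mul' _ _ ofReal_ne_top, lintegral_indicator measurableSet_Icc,
          ofReal_add (by positivity) (by rw [← hl]; have := Real.log_nonneg hT; positivity)]
        gcongr
        · rw [setLIntegral_const, Real.volume_Icc, ← ofReal_mul u0]
          exact ofReal_le_ofReal (le_of_eq (by ring))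
        · rw [mul_comm (2 * a), ofReal_mul v0, ← hl]
          gcongr
          exact lg_int hη hT

lemma core_mass (ha : 0 < a) (hη : 0 < η) (c0 : 0 ≤ c) (hT : 1 ≤ T) :
    .ofReal (a * c) ≤ ∫⁻ q in Icc (-1) 1 ×ˢ Icc (-a) a, F a η T c q := by
  refine le_trans ?_ (setLIntegral_mono' (measurableSet_Icc.prod measurableSet_Icc)
    (f := fun _ => .ofReal (c / 2 ^ 2)) fun q hq => ?_)
  · rw [setLIntegral_const, Measure.volume_eq_prod, Measure.prod_prod, Real.volume_Icc,
      Real.volume_Icc, ← ofReal_mul (by norm_num), ← ofReal_mul (by positivity)]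
    exact ofReal_le_ofReal (le_of_eq (by ring))
  · have h1 : pf η q.1 = 1 := by
      rw [pf, max_eq_right (by linarith [abs_le.2 hq.1])]; simp
    have h2 := abs_le.2 hq.2
    refine le_F ha hη c0 ⟨h1 ▸ hT, h2.trans (le_mul_of_one_le_right ha.le hT)⟩ ?_
    have := (div_le_one ha).2 h2
    rw [Φ, h1]; linarith

lemma norm (ha : 0 < a) (a1 : a ≤ 1) (hη : 0 < η) (hT : 1 ≤ T) (hl : η * Real.log T = a) :
    ∃ c, 0 < c ∧ 1 / 8 ≤ a * c ∧ a * c ≤ 1 ∧ ∫⁻ q, F a η T c q = 1 := by
  have h1 := (core_mass (c := 1) ha hη zero_le_one hT).trans (setLIntegral_le_lintegral _ _)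
  have h2 : ∫⁻ q, F a η T 1 q ≤ .ofReal (2 * (2 * a) + 2 * a * (2 * a)) := by
    rw [Measure.volume_eq_prod, lintegral_prod _ F_meas.aemeasurable]
    refine lgI hη hT hl (by positivity) (by positivity) (fun x _ => ?_) (fun x _ _ => ?_)
      fun x h => by simp [U0 h]
    · refine (U1 ha hη zero_le_one x).trans (ofReal_le_ofReal ?_)
      rw [one_mul]
      exact div_le_self (by positivity) (pf1 hη x)
    · simpa using U1 (T := T) ha hη zero_le_one x
  have h3 := ne_top_of_le_ne_top ofReal_ne_top h2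
  rw [ofReal_le_iff_le_toReal h3, mul_one] at h1
  have h4 := toReal_le_of_le_ofReal (by positivity) h2
  set Z := (∫⁻ q, F a η T 1 q).toReal with hZ
  have Z0 : 0 < Z := ha.trans_le h1
  refine ⟨1 / Z, by positivity, ?_, ?_, ?_⟩
  · rw [mul_one_div, le_div_iff₀ Z0]; nlinarith
  · rw [mul_one_div, div_le_one Z0]; exact h1
  · have : ∀ q, F a η T (1 / Z) q = .ofReal (1 / Z) * F a η T 1 q := by
      intro q
      simp only [F]
      by_cases h : q ∈ K a η T
      · rw [indicator_of_mem h, indicator_of_mem h, ← ofReal_mul (by positivity), mul_one_div]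
      · simp [h]
    simp only [this]
    rw [lintegral_const_mul _ F_meas, ← ofReal_toReal h3, ← hZ, ← ofReal_mul (by positivity),
      one_div_mul_cancel Z0.ne', ofReal_one]

lemma V2 (ha : 0 < a) (hη : 0 < η) (c0 : 0 ≤ c) (hT : 1 ≤ T) {y : ℝ} (h : |y| ≤ a) :
    .ofReal (c / 2) ≤ ∫⁻ x, F a η T c (x, y) := by
  convert low (u := -1) (v := 1) (m := c / 2 ^ 2) (by positivity) fun x hx => by
    have h1 : pf η x = 1 := by
      rw [pf, max_eq_right (by linarith [abs_le.2 hx])]; simp
    refine le_F ha hη c0 (q := (x, y)) ⟨h1 ▸ hT, h.trans (le_mul_of_one_le_right ha.le hT)⟩ ?_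
    have := (div_le_one ha).2 h
    rw [Φ, h1]; linarith using 2
  ring

lemma V3 (ha : 0 < a) (a1 : a ≤ 1) (hη : 0 < η) (c0 : 0 ≤ c) {y : ℝ} (h : 8 ≤ |y|)
    (h' : |y| ≤ a * T) : .ofReal (c * η * a / (4 * |y|)) ≤ ∫⁻ x, F a η T c (x, y) := by
  have s1 : 8 ≤ |y| / a := by rw [le_div_iff₀ ha]; linarith
  have s2 : |y| / a ≤ T := by rwa [div_le_iff₀' ha]
  convert low (u := -(η * (|y| / a / 2))) (v := η * (|y| / a / 2)) (m := c / (2 * (|y| / a)) ^ 2)
    (by positivity) fun x hx => by
    have h1 : pf η x ≤ 1 + |y| / a / 2 := by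
      have : max (|x| - 1) 0 / η ≤ |y| / a / 2 := by
        rw [div_le_iff₀' hη]
        exact max_le (by linarith [abs_le.2 hx]) (by positivity)
      unfold pf; linarith
    refine le_F ha hη c0 (q := (x, y)) ⟨by simp only; linarith, h'⟩ ?_
    rw [Φ]; simp only; linarith using 2
  field_simp; ring

lemma W1 (ha : 0 < a) (hη : 0 < η) (c0 : 0 ≤ c) (w : ℝ) :
    ∫⁻ y, F a η T c (w - y, y) ≤ .ofReal (2 * (a * c)) := by
  refine le_trans (lintegral_mono fun y => F_le (b := 1 + |y - 0| / a) c0 _ (by positivity) ?_) ?_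
  · have := pf1 hη (w - y)
    simp only [Φ, sub_zero]; linarith
  · rw [Jc c0 one_pos ha 0]
    exact ofReal_le_ofReal (le_of_eq (by ring))

lemma W2 (ha : 0 < a) (hη : 0 < η) (c0 : 0 ≤ c) {w : ℝ} (h : 4 ≤ |w|) :
    ∫⁻ y, F a η T c (w - y, y) ≤ .ofReal (a * c * (8 * a / |w| ^ 2 + 16 * η / |w|)) := by
  have w0 : 0 < |w| := by linarith
  set B := |w| / (2 * a) with hB
  have B0 : 0 < B := by positivity
  calc _ ≤ ∫⁻ y, ((Icc (w - 1) (w + 1)).indicator (fun _ => ENNReal.ofReal (c / B ^ 2)) y +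
        (.ofReal (c / (B + |y - (w - 1)| / η) ^ 2) + (.ofReal (c / (B + |y - (w + 1)| / η) ^ 2) +
        .ofReal (c / (|w| / (4 * η) + |y - 0| / a) ^ 2)))) := by
        refine lintegral_mono fun y => ?_
        by_cases h1 : |w| / 2 ≤ |y|
        · have h2 : B ≤ |y| / a := by
            rw [hB, ← div_div]; gcongr
          by_cases h3 : y < w - 1
          · refine le_trans ?_ (le_self_add.trans le_add_self)
            refine F_le c0 _ (by positivity) ?_
            simp only [Φ, pf]
            rw [abs_of_neg (by linarith : y - (w - 1) < 0), abs_of_pos (by linarith : 0 < w - y),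
              max_eq_left (by linarith), show -(y - (w - 1)) = w - y - 1 by ring]
            linarith
          by_cases h4 : w + 1 < y
          · refine le_trans ?_ ((le_self_add.trans le_add_self).trans le_add_self)
            refine F_le c0 _ (by positivity) ?_
            simp only [Φ, pf]
            rw [abs_of_pos (by linarith : 0 < y - (w + 1)), abs_of_neg (by linarith : w - y < 0),
              max_eq_left (by linarith), show y - (w + 1) = -(w - y) - 1 by ring]
            linarith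
          · refine le_trans ?_ le_self_add
            rw [indicator_of_mem (show y ∈ Icc (w - 1) (w + 1) from ⟨by linarith, by linarith⟩)]
            refine F_le c0 _ B0 ?_
            have := pf1 hη (w - y)
            simp only [Φ]; linarith
        · refine le_trans ?_ ((le_add_self.trans le_add_self).trans le_add_self)
          refine F_le c0 _ (by positivity) ?_
          have h2 := abs_sub_abs_le_abs_sub w y
          have h3 : |w| / (4 * η) ≤ max (|w - y| - 1) 0 / η := by
            rw [← div_div]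
            gcongr
            exact le_trans (by linarith) (le_max_left _ _)
          simp only [Φ, pf, sub_zero]; linarith
    _ = _ := by
        rw [lintegral_add_left (measurable_const.indicator measurableSet_Icc),
          lintegral_add_left (by fun_prop), lintegral_add_left (by fun_prop), Jc c0 B0 hη,
          Jc c0 B0 hη, Jc c0 (by positivity) ha, lintegral_indicator measurableSet_Icc,
          setLIntegral_const, Real.volume_Icc, ← ofReal_mul (by positivity),
          ← ofReal_add (by positivity) (by positivity), ← ofReal_add (by positivity) (by positivity),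
          ← ofReal_add (mul_nonneg (by positivity) (by linarith)) (by positivity)]
        congr 1
        rw [hB]; field_simp; ring

end Pool.Agent.H.MP_a5e374_pr
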