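import Pool.Agent.H.MP_a5e374_pr.B

namespace Pool.Agent.H.MP_a5e374_pr
open MeasureTheory Set ENNReal
open scoped Pointwise

variable {a η T c : ℝ}

noncomputable def gU (a η T c x : ℝ) : ℝ≥0∞ := ∫⁻ y, F a η T c (x, y)
noncomputable def gV (a η T c y : ℝ) : ℝ≥0∞ := ∫⁻ x, F a η T c (x, y)
noncomputable def gW (a η T c w : ℝ) : ℝ≥0∞ := ∫⁻ y, F a η T c (w - y, y)

lemma gU_meas : Measurable (gU a η T c) := F_meas.lintegral_prod_right'
lemma gV_meas : Measurable (gV a η T c) := F_meas.lintegral_prod_left'
lemma gW_meas : Measurable (gW a η T c) :=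
  Measurable.lintegral_prod_right' (f := fun q : ℝ × ℝ => F a η T c (q.1 - q.2, q.2))
    (F_meas.comp (by fun_prop))

lemma mapU : (volume.withDensity (F a η T c)).map Prod.fst = volume.withDensity (gU a η T c) :=
  marg1 F_meas

lemma mapV : (volume.withDensity (F a η T c)).map Prod.snd = volume.withDensity (gV a η T c) :=
  marg F_meas MeasurableEquiv.prodComm Measure.measurePreserving_swap

def shear : ℝ × ℝ ≃ᵐ ℝ × ℝ where
  toFun q := (q.1 + q.2, q.2)
  invFun q := (q.1 - q.2, q.2)
  left_inv q := by simp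
  right_inv q := by simp
  measurable_toFun := by simp only [Equiv.coe_fn_mk]; fun_prop
  measurable_invFun := by simp only [Equiv.coe_fn_symm_mk]; fun_prop

lemma mapW : (volume.withDensity (F a η T c)).map (fun q => q.1 + q.2) =
    volume.withDensity (gW a η T c) :=
  marg F_meas shear (measurePreserving_sub_prod volume volume)

lemma mapN : (volume.withDensity (F a η T c)).map (fun q => -q) = volume.withDensity (F a η T c) := by
  have := mapE (F := F a η T c) (MeasurableEquiv.neg _) (Measure.measurePreserving_neg _)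
  refine this.trans ?_
  congr 1
  ext q
  simp [F, K, Φ, pf, indicator]

lemma F_supp (a1 : a ≤ 1) (hη : 0 < η) (η1 : η ≤ 1) (hT : 1 ≤ T) {q : ℝ × ℝ}
    (h : T < |q.1| ∨ T < |q.2|) : F a η T c q = 0 := by
  refine indicator_of_notMem (fun h' => ?_) _
  have h1 : max (|q.1| - 1) 0 / η ≤ T - 1 := by have := h'.1; unfold pf at this; linarith
  rw [div_le_iff₀ hη] at h1
  have h2 := le_max_left (|q.1| - 1) 0
  have h3 := h'.2
  rcases h with h | h <;> nlinarith

lemma V1 (ha : 0 < a) (a1 : a ≤ 1) (hη : 0 < η) (η1 : η ≤ 1) (hT : 1 ≤ T) (c0 : 0 ≤ c) (y : ℝ) :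
    gV a η T c y ≤ .ofReal (c * (2 * T)) := by
  calc _ ≤ ∫⁻ x, (Icc (-T) T).indicator (fun _ => ENNReal.ofReal (c / 1 ^ 2)) x := by
        refine lintegral_mono fun x => ?_
        by_cases h : x ∈ Icc (-T) T
        · rw [indicator_of_mem h]
          refine F_le c0 _ one_pos ?_
          have := pf1 hη x
          have : 0 ≤ |y| / a := by positivity
          simp only [Φ]; linarith
        · rw [mem_Icc, ← abs_le, not_le] at h
          rw [F_supp a1 hη η1 hT (Or.inl h)]; exact zero_le
    _ = _ := by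
        rw [lintegral_indicator measurableSet_Icc, setLIntegral_const, Real.volume_Icc,
          ← ofReal_mul (by positivity)]
        congr 1; ring

lemma CU (ha : 0 < a) (hη : 0 < η) (hT : 1 ≤ T) (hl : η * Real.log T = a) (c0 : 0 < c)
    (c1 : a * c ≤ 1) (W1' : ∫⁻ w, gW a η T c w = 1) :
    ∫⁻ q, .ofReal ((gW a η T c (q.1 + q.2)).toReal / (gU a η T c q.1).toReal)
      ∂volume.withDensity (F a η T c) ≤ .ofReal 8 := by
  have := gW_meas (a := a) (η := η) (T := T) (c := c)
  have := gU_meas (a := a) (η := η) (T := T) (c := c)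
  have := F_meas (a := a) (η := η) (T := T) (c := c)
  have Wt : ∀ w, gW a η T c w ≠ ⊤ := fun w => ne_top_of_le_ne_top ofReal_ne_top (W1 ha hη c0.le w)
  rw [lintegral_withDensity_eq_lintegral_mul _ F_meas (by fun_prop), Measure.volume_eq_prod,
    lintegral_prod _ (by fun_prop)]
  have e : ∀ x y, ENNReal.ofReal ((gW a η T c (x + y)).toReal / (gU a η T c x).toReal) =
      gW a η T c (x + y) * .ofReal (1 / (gU a η T c x).toReal) := fun x y => by
    rw [div_eq_mul_one_div, ofReal_mul toReal_nonneg, ofReal_toReal (Wt _)]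
  simp only [Pi.mul_apply, e]
  have I := fun x => @inner (fun y => F a η T c (x, y)) (fun y => gW a η T c (x + y))
    (by fun_prop) (by fun_prop) (by rw [lintegral_add_left_eq_self (gW a η T c) x, W1'])
  refine (lgI (u := 2) (v := 2 / a) hη hT hl (by norm_num) (by positivity) (fun x _ => ?_)
    (fun x h _ => ?_) fun x h => by simp [U0 h]).trans (ofReal_le_ofReal (le_of_eq ?_))
  · exact (I x (b := .ofReal 2) (d := 0) fun y =>
      Or.inl ((W1 ha hη c0.le _).trans (ofReal_le_ofReal (by linarith)))).trans (add_zero _).le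
  · have p1 := pf1 hη x
    have := I x (b := 0) fun y => Or.inr (iota (n := c / pf η x ^ 2)
      (ne_top_of_le_ne_top ofReal_ne_top (U1 ha hη c0.le x)) (by positivity) (by positivity)
      (U2 ha hη c0.le h) (F_le c0.le _ (by positivity) (by
        have : 0 ≤ |y| / a := by positivity
        simp only [Φ]; linarith)))
    rw [zero_add] at this
    refine this.trans (ofReal_le_ofReal (le_of_eq ?_))
    field_simp
  · field_simp; ring

lemma CV (ha : 0 < a) (a1 : a ≤ 1) (hη : 0 < η) (η1 : η ≤ 1) (hT : 1 ≤ T)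
    (hl : η * Real.log T = a) (c0 : 0 < c) (c1 : a * c ≤ 1) (W1' : ∫⁻ w, gW a η T c w = 1) :
    ∫⁻ q, .ofReal ((gW a η T c (q.1 + q.2)).toReal / (gV a η T c q.2).toReal)
      ∂volume.withDensity (F a η T c) ≤ .ofReal 792 := by
  have := gW_meas (a := a) (η := η) (T := T) (c := c)
  have := gV_meas (a := a) (η := η) (T := T) (c := c)
  have := F_meas (a := a) (η := η) (T := T) (c := c)
  have Wt : ∀ w, gW a η T c w ≠ ⊤ := fun w => ne_top_of_le_ne_top ofReal_ne_top (W1 ha hη c0.le w)
  rw [lintegral_withDensity_eq_lintegral_mul _ F_meas (by fun_prop), Measure.volume_eq_prod,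
    lintegral_prod_symm _ (by fun_prop)]
  have e : ∀ x y, ENNReal.ofReal ((gW a η T c (x + y)).toReal / (gV a η T c y).toReal) =
      gW a η T c (x + y) * .ofReal (1 / (gV a η T c y).toReal) := fun x y => by
    rw [div_eq_mul_one_div, ofReal_mul toReal_nonneg, ofReal_toReal (Wt _)]
  simp only [Pi.mul_apply, e]
  have I := fun y => @inner (fun x => F a η T c (x, y)) (fun x => gW a η T c (x + y))
    (by fun_prop) (by fun_prop) (by rw [lintegral_add_right_eq_self (gW a η T c) y, W1'])
  calc _ ≤ ∫⁻ y, (.ofReal (300 / (1 + |y - 0| / 1) ^ 2) + .ofReal (96 * η / a) * lg 1 T |y|) := by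
        refine lintegral_mono fun y => ?_
        have y0 := abs_nonneg y
        simp only [sub_zero, div_one]
        by_cases h : |y| ≤ 8
        · refine (I y (b := .ofReal 2) (d := 0) fun x =>
            Or.inl ((W1 ha hη c0.le _).trans (ofReal_le_ofReal (by linarith)))).trans ?_
          refine add_le_add (ofReal_le_ofReal ?_) zero_le
          rw [le_div_iff₀ (by positivity)]; nlinarith
        push Not at h
        by_cases h' : |y| ≤ a * T
        · refine (I y (b := .ofReal (32 / |y| ^ 2 + 32 * η / a / |y|))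
            (d := .ofReal (c / (|y| / (4 * η)) ^ 2 / (c * η * a / (4 * |y|)))) fun x => ?_).trans ?_
          · by_cases hx : |x| ≤ |y| / 2
            · have h2 : |y| / 2 ≤ |x + y| := by
                have := abs_sub_abs_le_abs_add y x
                rw [add_comm] at this; linarith
              refine Or.inl ((W2 ha hη c0.le (by linarith)).trans (ofReal_le_ofReal ?_))
              calc _ ≤ 1 * (8 * 1 / (|y| / 2) ^ 2 + 16 * (η / a) / (|y| / 2)) := by
                    gcongr
                    rw [le_div_iff₀ ha]; nlinarith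
                _ = _ := by field_simp; ring
            · refine Or.inr (iota (ne_top_of_le_ne_top ofReal_ne_top (V1 ha a1 hη η1 hT c0.le y))
                (by positivity) (by positivity) (V3 ha a1 hη c0.le h.le h')
                (F_le c0.le _ (by positivity) ?_))
              have h3 : |y| / (4 * η) ≤ max (|x| - 1) 0 / η := by
                rw [← div_div]
                gcongr
                exact le_trans (by linarith) (le_max_left _ _)
              have : 0 ≤ |y| / a := by positivity
              simp only [Φ, pf]; linarith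
          · rw [lg, indicator_of_mem (show |y| ∈ Icc 1 (1 + 1 * (T - 1)) from
              ⟨by linarith, by nlinarith⟩), ← ofReal_mul (by positivity),
              ← ofReal_add (by positivity) (by positivity),
              ← ofReal_add (by positivity) (by
                have : 0 < 1 + (|y| - 1) / 1 := by linarith
                positivity)]
            refine ofReal_le_ofReal ?_
            have h4 : 32 / |y| ^ 2 ≤ 300 / (1 + |y|) ^ 2 := by
              rw [div_le_div_iff₀ (by positivity) (by positivity)]; nlinarith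
            have h5 : 32 * η / a / |y| + c / (|y| / (4 * η)) ^ 2 / (c * η * a / (4 * |y|)) =
                96 * η / a * (1 / (1 + (|y| - 1) / 1)) := by
              rw [div_one, add_sub_cancel]; field_simp; ring
            linarith
        · have : ∀ x, F a η T c (x, y) = 0 := fun x => indicator_of_notMem (fun h => h' h.2) _
          simp [this]
    _ ≤ _ := by
        rw [lintegral_add_left (by fun_prop), Jc (by norm_num) one_pos one_pos,
          lintegral_const_mul' _ _ ofReal_ne_top]
        refine (add_le_add le_rfl (mul_le_mul_right (lg_int one_pos hT) _)).trans ?_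
        have := Real.log_nonneg hT
        rw [← ofReal_mul (by positivity), ← ofReal_add (by norm_num) (by positivity)]
        refine ofReal_le_ofReal (le_of_eq ?_)
        have : 96 * η / a * (2 * (1 * Real.log T)) = 192 * (η * Real.log T) / a := by ring
        rw [this, hl]; field_simp; ring

def ΓU (a η S T : ℝ) : Set (ℝ × ℝ) :=
  {q | q.1 ∈ Icc (1 + η * (S - 1)) (1 + η * (T - 1)) ∧ q.2 ∈ Icc (a * pf η q.1 / 2) (a * pf η q.1)}

lemma ΓU_meas {S : ℝ} : MeasurableSet (ΓU a η S T) := by
  have := pf_cont (η := η)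
  exact (measurable_fst measurableSet_Icc).inter
    ((measurableSet_le (f := fun q : ℝ × ℝ => a * pf η q.1 / 2) (by fun_prop) measurable_snd).inter
    (measurableSet_le (g := fun q : ℝ × ℝ => a * pf η q.1) measurable_snd (by fun_prop)))

lemma pf_eq (hη : 0 < η) {S x : ℝ} (hS : 1 ≤ S)
    (h : x ∈ Icc (1 + η * (S - 1)) (1 + η * (T - 1))) :
    1 ≤ x ∧ pf η x = 1 + (x - 1) / η ∧ S ≤ pf η x ∧ pf η x ≤ T := by
  have h1 : 1 ≤ x := by nlinarith [h.1]
  have h2 : pf η x = 1 + (x - 1) / η := by
    rw [pf, abs_of_pos (by linarith), max_eq_left (by linarith)]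
  have h3 : S - 1 ≤ (x - 1) / η := by rw [le_div_iff₀' hη]; linarith [h.1]
  have h4 : (x - 1) / η ≤ T - 1 := by rw [div_le_iff₀' hη]; linarith [h.2]
  exact ⟨h1, h2, by linarith, by linarith⟩

lemma ΓU_mass (ha : 0 < a) (hη : 0 < η) (c0 : 0 < c) {S : ℝ} (hS : 1 ≤ S) (hT : S ≤ T) :
    .ofReal (a * c / 8 * (η * (Real.log T - Real.log S))) ≤
      volume.withDensity (F a η T c) (ΓU a η S T) := by
  rw [withDensity_apply _ ΓU_meas, ← lintegral_indicator ΓU_meas, Measure.volume_eq_prod,
    lintegral_prod _ (F_meas.indicator ΓU_meas).aemeasurable, ofReal_mul (by positivity),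
    ← Lg hη hS hT, ← lintegral_const_mul' _ _ ofReal_ne_top]
  refine le_trans (setLIntegral_mono' measurableSet_Icc fun x hx => ?_)
    (setLIntegral_le_lintegral _ _)
  obtain ⟨h1, h2, h3, h4⟩ := pf_eq hη hS hx
  have p0 : 0 < pf η x := by linarith
  rw [← h2, ← ofReal_mul (by positivity)]
  convert low (u := a * pf η x / 2) (v := a * pf η x) (m := c / (2 * pf η x) ^ 2) (by positivity)
    fun y hy => ?_ using 2
  · field_simp; ring
  · rw [indicator_of_mem (show (x, y) ∈ ΓU a η S T from ⟨hx, hy⟩)]
    have y0 : 0 ≤ y := le_trans (by positivity) hy.1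
    refine le_F ha hη c0.le (q := (x, y)) ⟨h4, ?_⟩ ?_
    · simp only [abs_of_nonneg y0]
      exact hy.2.trans (by gcongr)
    · have := (div_le_iff₀' ha).2 hy.2
      simp only [Φ, abs_of_nonneg y0]; linarith

lemma ΓU_ratio (ha : 0 < a) (hη : 0 < η) (c0 : 0 < c) {S : ℝ} (hS : 1 ≤ S) (h1 : 1 ≤ η * S)
    (h2 : 8 * η ≤ a) {q : ℝ × ℝ} (hq : q ∈ ΓU a η S T) :
    a / (128 * η) * (gW a η T c (q.1 + q.2)).toReal ≤ (gU a η T c q.1).toReal := by
  obtain ⟨h3, -, h4, h5⟩ := pf_eq hη hS hq.1
  have p0 : 0 < pf η q.1 := by linarith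
  have h6 : a * pf η q.1 / 2 ≤ |q.1 + q.2| := le_trans (by linarith [hq.2.1]) (le_abs_self _)
  have h7 : 1 ≤ η * pf η q.1 := h1.trans (by gcongr)
  have h8 := toReal_le_of_le_ofReal (by positivity)
    (W2 (T := T) (w := q.1 + q.2) ha hη c0.le (by nlinarith))
  have h9 := (ofReal_le_iff_le_toReal
    (ne_top_of_le_ne_top ofReal_ne_top (U1 ha hη c0.le q.1))).1 (U2 ha hη c0.le h5)
  refine le_trans ?_ h9
  calc _ ≤ a / (128 * η) * (a * c * (8 * a / (a * pf η q.1 / 2) ^ 2 * (η * pf η q.1) +
        16 * η / (a * pf η q.1 / 2))) := by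
        refine mul_le_mul_of_nonneg_left (h8.trans ?_) (by positivity)
        gcongr
        refine le_trans ?_ (le_mul_of_one_le_right (by positivity) h7)
        gcongr
    _ = _ := by field_simp; ring

lemma params : ∃ a η S T : ℝ, 0 < a ∧ a ≤ 1 ∧ 0 < η ∧ 8 * η ≤ a ∧ 1 ≤ S ∧ S ≤ T ∧ 1 ≤ η * S ∧
    η * Real.log T = a ∧ η * (Real.log T - Real.log S) = a / 2 ∧ Real.exp 7000 * (4 * a) = 1 ∧
    Real.exp (1280 / a) = a / (128 * η) := by
  obtain ⟨a, a0, a1, ha⟩ : ∃ a : ℝ, 0 < a ∧ a ≤ 1 ∧ Real.exp 7000 * (4 * a) = 1 := by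
    refine ⟨1 / (4 * Real.exp 7000), by positivity, ?_, by field_simp⟩
    rw [div_le_one (by positivity)]
    linarith [Real.one_le_exp (show (0 : ℝ) ≤ 7000 by norm_num)]
  obtain ⟨η, η0, η1, hη⟩ : ∃ η : ℝ, 0 < η ∧ 8 * η ≤ a ^ 2 ∧ Real.exp (1280 / a) = a / (128 * η) := by
    refine ⟨a / (128 * Real.exp (1280 / a)), by positivity, ?_, by field_simp⟩
    have h1 := Real.add_one_le_exp (1280 / a)
    have h2 : a * (1280 / a) = 1280 := by field_simp
    rw [← mul_div_assoc, div_le_iff₀ (by positivity)]
    nlinarith [mul_le_mul_of_nonneg_left h1 (sq_nonneg a)]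
  refine ⟨a, η, Real.exp (a / (2 * η)), Real.exp (a / η), a0, a1, η0, by nlinarith,
    Real.one_le_exp (by positivity), Real.exp_le_exp.2 (by gcongr; linarith), ?_,
    by rw [Real.log_exp]; field_simp, by rw [Real.log_exp, Real.log_exp]; field_simp; ring, ha, hη⟩
  have h1 := Real.quadratic_le_exp_of_nonneg (show 0 ≤ a / (2 * η) by positivity)
  have h2 : η * ((a / (2 * η)) ^ 2 / 2) = a ^ 2 / (8 * η) := by field_simp; ring
  have h3 : 1 ≤ a ^ 2 / (8 * η) := by rw [le_div_iff₀ (by positivity)]; linarith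
  have h4 : 0 ≤ a / (2 * η) := by positivity
  nlinarith [mul_le_mul_of_nonneg_left h1 η0.le]

lemma conv (ha : 0 < a) (hη : 0 < η) (c0 : 0 < c) [IsFiniteMeasure (volume.withDensity (F a η T c))]
    {A B : Set (ℝ × ℝ)} (hA : IsCompact A) (hB : IsCompact B)
    (A0 : 0 < volume.withDensity (F a η T c) A) (B0 : 0 < volume.withDensity (F a η T c) B)
    {t : ℝ} (t0 : 0 < t) (t1 : t < 1) :
    min (volume.withDensity (F a η T c) A).toReal (volume.withDensity (F a η T c) B).toReal ≤
      (volume.withDensity (F a η T c) (t • A + (1 - t) • B)).toReal := by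
  have mC := ((hA.smul t).add (hB.smul (1 - t))).measurableSet
  have b1 : ∀ (A : Set (ℝ × ℝ)) p, A.indicator (F a η T c) p ≤ .ofReal (c + 2 * (a * c)) := by
    intro A p
    refine (indicator_le_self _ _ _).trans ((F_le c0.le _ one_pos ?_).trans (ofReal_le_ofReal ?_))
    · have := pf1 hη p.1
      have : 0 ≤ |p.2| / a := by positivity
      simp only [Φ]; linarith
    · have := mul_pos ha c0
      linarith
  have b2 : ∀ (A : Set (ℝ × ℝ)) x,
      ∫⁻ y, A.indicator (F a η T c) (x, y) ≤ .ofReal (c + 2 * (a * c)) := by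
    intro A x
    refine (lintegral_mono fun y => indicator_le_self _ _ _).trans
      ((U1 ha hη c0.le x).trans (ofReal_le_ofReal ?_))
    have := mul_le_mul_of_nonneg_left (div_le_self (show 0 ≤ 2 * a by positivity) (pf1 hη x)) c0.le
    linarith
  rw [← ofReal_le_iff_le_toReal (measure_ne_top _ _), withDensity_apply _ mC,
    ← lintegral_indicator mC]
  refine bbl t0 t1 (F_meas.indicator hA.measurableSet) (F_meas.indicator hB.measurableSet)
    (F_meas.indicator mC) _ ofReal_ne_top (b1 A) (b1 B) (b2 A) (b2 B) (F_mean ha hη c0 t0 t1 A B)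
    (lt_min (toReal_pos A0.ne' (measure_ne_top _ _)) (toReal_pos B0.ne' (measure_ne_top _ _))) ?_ ?_
  · rw [lintegral_indicator hA.measurableSet, ← withDensity_apply _ hA.measurableSet,
      ofReal_le_iff_le_toReal (measure_ne_top _ _)]
    exact min_le_left _ _
  · rw [lintegral_indicator hB.measurableSet, ← withDensity_apply _ hB.measurableSet,
      ofReal_le_iff_le_toReal (measure_ne_top _ _)]
    exact min_le_right _ _

end Pool.Agent.H.MP_a5e374_pr
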